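import Pool.Agent.H27.HB.TA
import Pool.Agent.H27.HB.TG

/-! row DIF of MP_8352e3_an (board hbe): the difference of two extremals -/

set_option autoImplicit false

namespace Pool.Agent.H38.HB
open MeasureTheory Set Filter Topology Pool.Agent.H80.HS Pool.Agent.H93.HQ Pool.Agent.H27.HB
open scoped ContDiff ENNReal

lemma rpow_two_mul {t a s : ℝ} (ht : 0 ≤ t) (hs : 0 ≤ s) (hst : s ≤ t) :
    t ^ (a - 2) * s ^ 2 ≤ t ^ a := by
  rcases eq_or_lt_of_le ht with h0 | h0
  · have hs0 : s = 0 := le_antisymm (by rw [h0]; exact hst) hs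
    rw [hs0, ← h0]
    have : (0 : ℝ) ≤ 0 ^ a := Real.rpow_nonneg le_rfl a
    simpa using this
  · have h1 : t ^ a = t ^ (a - 2) * t ^ 2 := by
      rw [← Real.rpow_natCast t 2, ← Real.rpow_add h0]
      congr 1
      push_cast
      ring
    rw [h1]
    exact mul_le_mul_of_nonneg_left (pow_le_pow_left₀ hs hst 2) (Real.rpow_nonneg ht _)

theorem pf_DIF (hELQ : T_ELQ) (hCLA : T_CLA) (hMNO : T_MNO) (hBQE : T_BQE) : T_DIF := by
  intro n hn p S hp1 hp2 hq hS u v g h hu hv hu0 hv0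
  have hpn : p < 2 * n + 2 := by
    have : (0 : ℝ) ≤ n := Nat.cast_nonneg n
    linarith
  set q : ℝ := ps n p with hqdef
  have hug : MemLp g (ENNReal.ofReal p) := hu.1.2.1
  have hvh : MemLp h (ENNReal.ofReal p) := hv.1.2.1
  have huu : MemLp u (ENNReal.ofReal q) := hu.1.1
  have hvv : MemLp v (ENNReal.ofReal q) := hv.1.1
  have hp0 : (0 : ℝ) < p := by linarith
  have hq0 : (0 : ℝ) < q := by linarith
  -- (A)
  have hA0 : Integrable (fun z => (‖g z‖ + ‖h z‖) ^ p) := by
    have h1 := (hug.norm.add hvh.norm).integrable_norm_rpow (by simpa using hp0) ENNReal.ofReal_ne_top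
    rw [ENNReal.toReal_ofReal hp0.le] at h1
    refine h1.congr (Eventually.of_forall fun z => ?_)
    show ‖‖g z‖ + ‖h z‖‖ ^ p = _
    rw [Real.norm_of_nonneg (by positivity)]
  have hA : Integrable (fun z => (‖g z‖ + ‖h z‖) ^ (p - 2) * ‖g z - h z‖ ^ 2) := by
    refine hA0.mono' ?_ (Eventually.of_forall fun z => ?_)
    · exact ((hug.1.norm.aemeasurable.add hvh.1.norm.aemeasurable).pow_const _).aestronglyMeasurable.mul
        ((hug.1.sub hvh.1).norm.pow 2)
    · rw [Real.norm_of_nonneg (by positivity)]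
      exact rpow_two_mul (by positivity) (norm_nonneg _) (norm_sub_le _ _)
  -- (B)
  have hB0 : Integrable (fun z => (|u z| + |v z|) ^ q) := by
    have h1 := (huu.norm.add hvv.norm).integrable_norm_rpow (by simpa using hq0) ENNReal.ofReal_ne_top
    rw [ENNReal.toReal_ofReal hq0.le] at h1
    refine h1.congr (Eventually.of_forall fun z => ?_)
    show ‖‖u z‖ + ‖v z‖‖ ^ q = _
    rw [Real.norm_of_nonneg (by positivity)]
    rfl
  have hB : Integrable (fun z => bq q (u z) (v z) * (u z - v z) ^ 2) := by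
    refine hB0.mono' ?_ ?_
    · exact ((hBQE.2.2 q).1.comp_aemeasurable
        (huu.1.aemeasurable.prodMk hvv.1.aemeasurable)).aestronglyMeasurable.mul
        ((huu.1.sub hvv.1).pow 2)
    · filter_upwards [hu0, hv0] with z h1 h2
      obtain ⟨-, -, h3, h4, -⟩ := hBQE.1 q (u z) (v z) hq h1 h2
      rw [Real.norm_of_nonneg (by positivity), abs_of_nonneg h1, abs_of_nonneg h2]
      have h5 : max (u z) (v z) ≤ u z + v z := max_le (by linarith) (by linarith)
      have h6 : bq q (u z) (v z) ≤ (u z + v z) ^ (q - 2) :=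
        h4.trans (Real.rpow_le_rpow (le_max_of_le_left h1) h5 (by linarith))
      have h7 : |u z - v z| ≤ u z + v z := abs_le.2 ⟨by linarith, by linarith⟩
      calc bq q (u z) (v z) * (u z - v z) ^ 2 ≤ (u z + v z) ^ (q - 2) * |u z - v z| ^ 2 := by
            rw [sq_abs]
            exact mul_le_mul_of_nonneg_right h6 (sq_nonneg _)
        _ ≤ (u z + v z) ^ q := rpow_two_mul (by positivity) (abs_nonneg _) h7
  refine ⟨hA, hB, ?_⟩
  -- (C)
  have hw := hCLA n hn p hp1 hpn u v g h 1 (-1) hu.1 hv.1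
  obtain ⟨a1, a2, a3⟩ := hELQ n hn p S hp1 hpn hS u g hu hu0 _ _ hw
  obtain ⟨b1, b2, b3⟩ := hELQ n hn p S hp1 hpn hS v h hv hv0 _ _ hw
  have hwe : ∀ z, (1 : ℝ) • g z + (-1 : ℝ) • h z = g z - h z := fun z => by
    rw [one_smul, neg_smul, one_smul, sub_eq_add_neg]
  have hfe : ∀ z, (1 : ℝ) * u z + (-1 : ℝ) * v z = u z - v z := fun z => by ring
  simp only [hwe, hfe] at a1 a2 a3 b1 b2 b3
  have hI : ∫ z, inner ℝ (‖g z‖ ^ (p - 2) • g z - ‖h z‖ ^ (p - 2) • h z) (g z - h z) =
      S * (q - 1) * ∫ z, bq q (u z) (v z) * (u z - v z) ^ 2 := by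
    have e1 : ∫ z, inner ℝ (‖g z‖ ^ (p - 2) • g z - ‖h z‖ ^ (p - 2) • h z) (g z - h z) =
        (∫ z, inner ℝ (‖g z‖ ^ (p - 2) • g z) (g z - h z)) -
          ∫ z, inner ℝ (‖h z‖ ^ (p - 2) • h z) (g z - h z) := by
      rw [← integral_sub a1 b1]
      exact integral_congr_ae (Eventually.of_forall fun z => inner_sub_left _ _ _)
    have e2 : ∫ z, (u z ^ (q - 1) * (u z - v z) - v z ^ (q - 1) * (u z - v z)) =
        (∫ z, u z ^ (q - 1) * (u z - v z)) - ∫ z, v z ^ (q - 1) * (u z - v z) :=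
      integral_sub a2 b2
    have e3 : ∫ z, (u z ^ (q - 1) * (u z - v z) - v z ^ (q - 1) * (u z - v z)) =
        (q - 1) * ∫ z, bq q (u z) (v z) * (u z - v z) ^ 2 := by
      rw [← integral_const_mul]
      refine integral_congr_ae ?_
      filter_upwards [hu0, hv0] with z h1 h2
      obtain ⟨h3, -⟩ := hBQE.1 q (u z) (v z) hq h1 h2
      linear_combination h3
    rw [e1, a3, b3, ← mul_sub, ← e2, e3]
    ring
  rw [← hI, ← integral_const_mul]
  refine integral_mono (hA.const_mul _) ?_ fun z => ?_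
  · refine (a1.sub b1).congr (Eventually.of_forall fun z => ?_)
    exact (inner_sub_left _ _ _).symm
  · have := hMNO n p hp1 hp2.le (g z) (h z)
    show (p - 1) * ((‖g z‖ + ‖h z‖) ^ (p - 2) * ‖g z - h z‖ ^ 2) ≤ _
    rw [← mul_assoc]
    exact this

end Pool.Agent.H38.HB
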