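import Pool.Agent.H27.HB.TC

/-! row NAT of MP_8352e3_an (board hbe): no atoms, uniformly over directions -/

set_option autoImplicit false

namespace Pool.Agent.H38.HB
open MeasureTheory Set Filter Topology Pool.Agent.H80.HS Pool.Agent.H93.HQ Pool.Agent.H27.HB
open scoped ContDiff ENNReal

lemma nu_ne (hQF : T_QF) {n : ℕ} (x : H n) : nu x ≠ 0 := by
  obtain ⟨-, -, -, h1, h2⟩ := hQF n x 0 1 one_pos
  intro h
  rw [h, norm_zero] at h2
  rw [← h2] at h1
  norm_num at h1

lemma zz_inj (hQF : T_QF) {n : ℕ} (x y : H n) (h : ∀ i, zz i x = zz i y) : x = y := by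
  have hx := nu_ne hQF x
  have hy := nu_ne hQF y
  have h0 : nu x = nu y := by
    have h1 : 2 / nu x - 1 = 2 / nu y - 1 := h none
    have h2 : 2 / nu x = 2 / nu y := by linear_combination h1
    rw [div_eq_div_iff hx hy] at h2
    have h3 := mul_left_cancel₀ (two_ne_zero (α := ℂ)) h2
    exact h3.symm
  have hz : ∀ j : Fin n, zc j x = zc j y := by
    intro j
    have h1 : 2 * zc j x / nu x = 2 * zc j y / nu y := h (some j)
    rw [h0, div_left_inj' hy] at h1
    exact mul_left_cancel₀ (two_ne_zero (α := ℂ)) h1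
  have ht : x.2.2 = y.2.2 := by
    have h1 := congrArg Complex.im h0
    have h2 : -x.2.2 = -y.2.2 := h1
    exact neg_injective h2
  refine Prod.ext ?_ (Prod.ext ?_ ht)
  · ext j
    exact congrArg Complex.re (hz j)
  · ext j
    exact congrArg Complex.im (hz j)

lemma zero_sub (hQF : T_QF) {n : ℕ} (e : Option (Fin n) → ℂ) (he : ∑ i, ‖e i‖ ^ 2 = 1) :
    {x : H n | 1 + ∑ i, e i * zz i x = 0}.Subsingleton := by
  have key : ∀ x : H n, 1 + ∑ i, e i * zz i x = 0 → ∀ i, zz i x = - (starRingEnd ℂ) (e i) := by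
    intro x hx
    obtain ⟨-, -, h1, -, -⟩ := hQF n x 0 1 one_pos
    have h2 : ∑ i, ‖zz i x + (starRingEnd ℂ) (e i)‖ ^ 2 = 0 := by
      have h3 : ∀ i, ‖zz i x + (starRingEnd ℂ) (e i)‖ ^ 2 =
          ‖zz i x‖ ^ 2 + ‖e i‖ ^ 2 + 2 * (e i * zz i x).re := by
        intro i
        rw [← Complex.normSq_eq_norm_sq, ← Complex.normSq_eq_norm_sq, ← Complex.normSq_eq_norm_sq,
          Complex.normSq_add, Complex.conj_conj, Complex.normSq_conj, mul_comm (zz i x)]
      rw [Finset.sum_congr rfl fun i _ => h3 i, Finset.sum_add_distrib, Finset.sum_add_distrib, h1, he,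
        ← Finset.mul_sum, ← Complex.re_sum]
      have h4 : ∑ i, e i * zz i x = -1 := by linear_combination hx
      rw [h4]
      norm_num
    intro i
    have h3 := (Finset.sum_eq_zero_iff_of_nonneg fun i _ => by positivity).1 h2 i (Finset.mem_univ i)
    have h4 : zz i x + (starRingEnd ℂ) (e i) = 0 := by
      rw [← norm_eq_zero]
      exact pow_eq_zero_iff (two_ne_zero) |>.1 h3
    linear_combination h4
  intro x hx y hy
  exact zz_inj hQF x y fun i => by rw [key x hx i, key y hy i]

lemma sphere_compact (n : ℕ) : IsCompact {e : Option (Fin n) → ℂ | ∑ i, ‖e i‖ ^ 2 = 1} := by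
  refine Metric.isCompact_of_isClosed_isBounded ?_ ?_
  · exact isClosed_eq (continuous_finsetSum _ fun i _ => (continuous_apply i).norm.pow 2)
      continuous_const
  · refine (Metric.isBounded_closedBall (x := (0 : Option (Fin n) → ℂ)) (r := 1)).subset ?_
    intro e he
    rw [mem_closedBall_zero_iff, pi_norm_le_iff_of_nonneg zero_le_one]
    intro i
    have h1 : ‖e i‖ ^ 2 ≤ ∑ j, ‖e j‖ ^ 2 :=
      Finset.single_le_sum (f := fun j => ‖e j‖ ^ 2) (fun j _ => by positivity) (Finset.mem_univ i)
    have h2 : ∑ j, ‖e j‖ ^ 2 = 1 := he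
    rw [h2] at h1
    nlinarith [norm_nonneg (e i)]

lemma zz_meas {n : ℕ} (i : Option (Fin n)) : Measurable (zz i : H n → ℂ) := by
  have hsq : Measurable (fun z : H n => nu z) := by
    have h1 : Continuous (fun z : H n => 1 + Pool.Agent.H93.HQ.sq z) := by
      unfold Pool.Agent.H93.HQ.sq
      fun_prop
    have h2 : Continuous (fun z : H n => -z.2.2) := by fun_prop
    have h3 : (fun z : H n => nu z) = fun z => ((1 + Pool.Agent.H93.HQ.sq z : ℝ) : ℂ) + ((-z.2.2 : ℝ) : ℂ) * Complex.I := by
      funext z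
      apply Complex.ext
      · simp [nu]
      · simp [nu]
    rw [h3]
    exact ((Complex.continuous_ofReal.comp h1).add
      ((Complex.continuous_ofReal.comp h2).mul continuous_const)).measurable
  have hzc : ∀ j : Fin n, Measurable (fun z : H n => zc j z) := by
    intro j
    have h1 : Continuous (fun z : H n => z.1 j) := by fun_prop
    have h2 : Continuous (fun z : H n => z.2.1 j) := by fun_prop
    have h3 : (fun z : H n => zc j z) = fun z => ((z.1 j : ℝ) : ℂ) + ((z.2.1 j : ℝ) : ℂ) * Complex.I := by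
      funext z
      apply Complex.ext
      · simp [zc]
      · simp [zc]
    rw [h3]
    exact ((Complex.continuous_ofReal.comp h1).add
      ((Complex.continuous_ofReal.comp h2).mul continuous_const)).measurable
  cases i with
  | none => exact (measurable_const.div hsq).sub measurable_const
  | some j => exact (measurable_const.mul (hzc j)).div hsq

theorem pf_NAT (hQF : T_QF) : T_NAT := by
  intro n ρ η hρ hρ0 hη
  by_contra hcon
  push Not at hcon
  have h1 : ∀ k : ℕ, ∃ e : Option (Fin n) → ℂ, ∑ i, ‖e i‖ ^ 2 = 1 ∧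
      η < ∫ x in {x : H n | ‖1 + ∑ i, e i * zz i x‖ < 1 / ((k : ℝ) + 1)}, ρ x := fun k =>
    hcon (1 / ((k : ℝ) + 1)) (by positivity)
  choose e he hI using h1
  obtain ⟨e0, he0, φ, hφ, hlim⟩ := (sphere_compact n).tendsto_subseq he
  set A : ℕ → Set (H n) := fun k => {x : H n | ‖1 + ∑ i, e k i * zz i x‖ < 1 / ((k : ℝ) + 1)} with hA
  have hAm : ∀ k, MeasurableSet (A k) := by
    intro k
    refine measurableSet_lt ?_ measurable_const
    exact (measurable_const.add (Finset.measurable_sum _ fun i _ =>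
      measurable_const.mul (zz_meas i))).norm
  have hz : volume {x : H n | 1 + ∑ i, e0 i * zz i x = 0} = 0 := by
    have hns : NullSingletonClass ((volume : Measure (V n)).prod
        ((volume : Measure (V n)).prod (volume : Measure ℝ))) := inferInstance
    exact (zero_sub hQF e0 he0).measure_zero ((volume : Measure (V n)).prod
        ((volume : Measure (V n)).prod (volume : Measure ℝ)))
  have hdct : Tendsto (fun k => ∫ x, (A (φ k)).indicator ρ x) atTop (𝓝 (∫ _, (0 : ℝ) ∂(volume : Measure (H n)))) := by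
    refine tendsto_integral_of_dominated_convergence ρ ?_ hρ ?_ ?_
    · intro k
      exact (hρ.indicator (hAm _)).1
    · intro k
      refine Eventually.of_forall fun x => ?_
      refine (norm_indicator_le_norm_self ρ x).trans ?_
      rw [Real.norm_of_nonneg (hρ0 x)]
    · have hae : ∀ᵐ x : H n, 1 + ∑ i, e0 i * zz i x ≠ 0 := by
        rw [ae_iff]
        simpa using hz
      filter_upwards [hae] with x hx
      have hpos : 0 < ‖1 + ∑ i, e0 i * zz i x‖ := norm_pos_iff.2 hx
      have hc1 : Tendsto (fun k => ‖1 + ∑ i, e (φ k) i * zz i x‖) atTop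
          (𝓝 ‖1 + ∑ i, e0 i * zz i x‖) := by
        refine (tendsto_const_nhds.add (tendsto_finsetSum _ fun i _ => ?_)).norm
        exact ((tendsto_pi_nhds.1 hlim i)).mul tendsto_const_nhds
      have hc2 : Tendsto (fun k => 1 / (((φ k : ℕ) : ℝ) + 1)) atTop (𝓝 0) :=
        tendsto_one_div_add_atTop_nhds_zero_nat.comp hφ.tendsto_atTop
      have hev : ∀ᶠ k in atTop, 1 / (((φ k : ℕ) : ℝ) + 1) < ‖1 + ∑ i, e (φ k) i * zz i x‖ :=
        hc2.eventually_lt hc1 hpos
      refine tendsto_const_nhds.congr' ?_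
      filter_upwards [hev] with k hk
      symm
      have hnm : x ∉ A (φ k) := fun h => absurd (h : ‖1 + ∑ i, e (φ k) i * zz i x‖ < _) (not_lt.2 hk.le)
      exact indicator_of_notMem hnm _
  rw [integral_zero] at hdct
  have hev := hdct.eventually_lt_const hη
  obtain ⟨k, hk⟩ := hev.exists
  rw [integral_indicator (hAm _)] at hk
  exact absurd (hI (φ k)) (not_lt.2 hk.le)

end Pool.Agent.H38.HB
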